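import Pool.Agent.Lib.MP_8cb858_nt.SEL.Alg

/-!
# Auxiliary notions for: a positive proportion of the elliptic curves over a number field has
# trivial 2-Selmer group

None of these occurs in the statement of the final theorem.
`K` is a field extension of `F` (usually a completion), `E = curve a b`, `th` the roots of
`x^3+ax+b` in `Fbar`, `c : Gal F → E(Fbar)` a 2-torsion cocycle, `sg th (c t) k = ±1` its signs.
-/

namespace Pool.Agent.Lib.MP_8cb858_nt.ZER

open NumberField IsDedekindDomain Pool.Agent.Lib.MP_8cb858_nt.SEL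
open scoped Classical

universe u

/-- A fixed embedding of the algebraic closure of `F` into that of the extension `K`. -/
noncomputable def emb (F K : Type u) [Field F] [Field K] [Algebra F K] :
    AlgebraicClosure F →ₐ[F] AlgebraicClosure K := IsAlgClosed.lift

section

variable {F : Type u} [Field F]

/-- `z` is a vector of the twisted space of `c` over the extension `K` of `F`. -/
def Eqv {E : WeierstrassCurve F} {K : Type u} [Field K] [Algebra F K]
    (th : Fin 3 → AlgebraicClosure F) (i : AlgebraicClosure F →ₐ[F] AlgebraicClosure K)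
    (c : Gal F → Pt E (AlgebraicClosure F)) (z : Fin 3 → AlgebraicClosure K) : Prop :=
  ∀ (s : AlgebraicClosure K ≃ₐ[K] AlgebraicClosure K) (t : Gal F), (∀ x, i (t x) = s (i x)) →
    ∀ j k : Fin 3, t (th j) = th k → s (z j) = (sg th (c t) k : AlgebraicClosure K) * z k

/-- The roots of the twist by `d`. -/
noncomputable def dth (d : F) (th : Fin 3 → AlgebraicClosure F) : Fin 3 → AlgebraicClosure F :=
  fun j => algebraMap F (AlgebraicClosure F) d * th j

/-- `c` (for `E`) and `c'` (for the twist of `E` by `d`) have the same signs. -/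
def Same {E E' : WeierstrassCurve F} (d : F) (th : Fin 3 → AlgebraicClosure F)
    (c : Gal F → Pt E (AlgebraicClosure F)) (c' : Gal F → Pt E' (AlgebraicClosure F)) : Prop :=
  ∀ (t : Gal F) (k : Fin 3), sg th (c t) k = sg (dth d th) (c' t) k

/-- The class of `c` over `K` is the class of a `K`-rational point with `y ≠ 0` of the twist
`y^2 = x^3 + d^2 a x + d^3 b`. -/
def Pos {E : WeierstrassCurve F} (a b d : F) (th : Fin 3 → AlgebraicClosure F)
    (K : Type u) [Field K] [Algebra F K]
    (i : AlgebraicClosure F →ₐ[F] AlgebraicClosure K)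
    (c : Gal F → Pt E (AlgebraicClosure F)) : Prop :=
  ∃ (x y : K) (z : Fin 3 → AlgebraicClosure K), y ≠ 0 ∧
    y ^ 2 = x ^ 3 + algebraMap F K (d ^ 2 * a) * x + algebraMap F K (d ^ 3 * b) ∧
    (∀ j, z j ^ 2 = algebraMap K (AlgebraicClosure K) x - i (dth d th j)) ∧ Eqv th i c z

/-- The class of `c` in `H^1(K, E[2])` is trivial (for the fixed embedding). -/
def Zv {E : WeierstrassCurve F} (th : Fin 3 → AlgebraicClosure F)
    (K : Type u) [Field K] [Algebra F K] (c : Gal F → Pt E (AlgebraicClosure F)) : Prop :=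
  ∃ e : Fin 3 → ℤ, (∀ j, e j = 1 ∨ e j = -1) ∧ e 0 * e 1 * e 2 = 1 ∧
    Eqv th (emb F K) c (fun j => (e j : AlgebraicClosure K))

/-- A normalized basis `Z` of the twisted space with its Gram matrices. -/
structure Nrm (a b : F) (c : Gal F → Pt (curve a b) (AlgebraicClosure F))
    (th : Fin 3 → AlgebraicClosure F) (Z : Matrix (Fin 3) (Fin 3) (AlgebraicClosure F))
    (A B : Matrix (Fin 3) (Fin 3) F) : Prop where
  roots : IsRoots (algebraMap F _ a) (algebraMap F _ b) th
  tw : Twisted th c Z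
  dt : Z.det = (vnd th).det
  hA : gA th Z = A.map (algebraMap F _)
  hB : gB th Z = B.map (algebraMap F _)
  sA : A.IsSymm
  sB : B.IsSymm
  dA : A.det = -1

/-- The split ternary form of determinant `-1`: `2 x_0 x_1 + x_2^2`. -/
def J3 (R : Type u) [CommRing R] : Matrix (Fin 3) (Fin 3) R := !![0, 1, 0; 1, 0, 0; 0, 0, 1]

/-- Over `K` the form `A` is equivalent to `J3`. -/
def LJ (K : Type u) [Field K] [Algebra F K] (A : Matrix (Fin 3) (Fin 3) F) : Prop :=
  ∃ g : Matrix (Fin 3) (Fin 3) K, g.det ≠ 0 ∧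
    g.transpose * A.map (algebraMap F K) * g = J3 K

end

section

variable {F : Type u} [Field F] [NumberField F]

/-- The pair `(A, B)` has an integral model at `v`. -/
def LInt (v : HeightOneSpectrum (𝓞 F)) (A B : Matrix (Fin 3) (Fin 3) F) : Prop :=
  ∃ g : Matrix (Fin 3) (Fin 3) (v.adicCompletion F), g.det = 1 ∧
    ∀ i j, Valued.v ((g.transpose * A.map (algebraMap F (v.adicCompletion F)) * g) i j) ≤ 1 ∧
      Valued.v ((g.transpose * B.map (algebraMap F (v.adicCompletion F)) * g) i j) ≤ 1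

/-- `w` is a nonarchimedean absolute value on the algebraic closure of `F_v`, invariant under the
Galois group, whose unit ball meets `F_v` in the valuation ring. -/
structure IsW (v : HeightOneSpectrum (𝓞 F)) (w : AlgebraicClosure (v.adicCompletion F) → ℝ) :
    Prop where
  nonneg : ∀ x, 0 ≤ w x
  zero : ∀ x, w x = 0 ↔ x = 0
  one : w 1 = 1
  mul : ∀ x y, w (x * y) = w x * w y
  add : ∀ x y, w (x + y) ≤ max (w x) (w y)
  inv : ∀ (s : AlgebraicClosure (v.adicCompletion F) ≃ₐ[v.adicCompletion F]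
    AlgebraicClosure (v.adicCompletion F)) (x), w (s x) = w x
  ball : ∀ x : v.adicCompletion F, w (algebraMap _ _ x) ≤ 1 ↔ Valued.v x ≤ 1

/-- The class of `c` at `v` is a class of units. -/
def UR {E : WeierstrassCurve F} (v : HeightOneSpectrum (𝓞 F))
    (th : Fin 3 → AlgebraicClosure F) (c : Gal F → Pt E (AlgebraicClosure F)) : Prop :=
  ∀ w, IsW v w → ∃ z : Fin 3 → AlgebraicClosure (v.adicCompletion F),
    Eqv th (emb F (v.adicCompletion F)) c z ∧ ∀ j, w (z j) = 1

/-- Type (1)(2) over a field: nonzero discriminant and exactly one root. -/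
def ty12 {k : Type u} [Field k] (a b : k) : Prop :=
  4 * a ^ 3 + 27 * b ^ 2 ≠ 0 ∧ (∃ x : k, x ^ 3 + a * x + b = 0) ∧
    ∀ x y : k, x ^ 3 + a * x + b = 0 → y ^ 3 + a * y + b = 0 → x = y

/-- Type (3) over a field: nonzero discriminant and no root. -/
def ty3 {k : Type u} [Field k] (a b : k) : Prop :=
  4 * a ^ 3 + 27 * b ^ 2 ≠ 0 ∧ ∀ x : k, x ^ 3 + a * x + b ≠ 0

/-- The residue field of `v`. -/
abbrev res (v : HeightOneSpectrum (𝓞 F)) : Type u := 𝓞 F ⧸ v.asIdeal

noncomputable instance (v : HeightOneSpectrum (𝓞 F)) : Field (res v) :=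
  @Ideal.Quotient.field _ _ v.asIdeal v.isMaximal

/-- Reduction modulo `v`. -/
noncomputable abbrev red (v : HeightOneSpectrum (𝓞 F)) : 𝓞 F →+* res v :=
  Ideal.Quotient.mk v.asIdeal

/-- The situation at a place of type (1)(2): `r` in `F_v` is the root `th j0`, and the prime
number `l` is a uniformizer. -/
structure Loc12 (v : HeightOneSpectrum (𝓞 F)) (l : ℕ) (a b : 𝓞 F)
    (th : Fin 3 → AlgebraicClosure F) (j0 : Fin 3) (r : v.adicCompletion F) : Prop where
  roots : IsRoots (algebraMap F _ (a : F)) (algebraMap F _ (b : F)) th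
  typ : ty12 (red v a) (red v b)
  rat : algebraMap (v.adicCompletion F) (AlgebraicClosure (v.adicCompletion F)) r =
    emb F (v.adicCompletion F) (th j0)
  mem : ((l : ℕ) : 𝓞 F) ∈ v.asIdeal
  nmem : ((l : ℕ) : 𝓞 F) ∉ v.asIdeal ^ 2
  two : (2 : 𝓞 F) ∉ v.asIdeal

/-- The local invariants `(m, kap)` of the class of `c` at a place of type (1)(2):
the norm of the component in the quadratic extension is `l^(2m) kap`, `kap` a unit. -/
def Inv {E : WeierstrassCurve F} (v : HeightOneSpectrum (𝓞 F)) (l : ℕ)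
    (th : Fin 3 → AlgebraicClosure F) (j0 : Fin 3) (c : Gal F → Pt E (AlgebraicClosure F))
    (m : ℤ) (kap : v.adicCompletion F) : Prop :=
  Valued.v kap = 1 ∧ ∃ z : Fin 3 → AlgebraicClosure (v.adicCompletion F),
    Eqv th (emb F (v.adicCompletion F)) c z ∧ (∀ j, z j ≠ 0) ∧
    (z (j0 + 1) * z (j0 + 2)) ^ 2 =
      algebraMap (v.adicCompletion F) _ (((l : ℕ) : v.adicCompletion F) ^ (2 * m) * kap)

/-- Unramified class at a place of type (1)(2). -/
def UU {E : WeierstrassCurve F} (v : HeightOneSpectrum (𝓞 F)) (l : ℕ)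
    (th : Fin 3 → AlgebraicClosure F) (j0 : Fin 3)
    (c : Gal F → Pt E (AlgebraicClosure F)) : Prop :=
  ∃ m kap, Even m ∧ Inv v l th j0 c m kap

/-- Class of a point of a ramified twist at a place of type (1)(2). -/
def RR {E : WeierstrassCurve F} (v : HeightOneSpectrum (𝓞 F)) (l : ℕ) (a : 𝓞 F)
    (th : Fin 3 → AlgebraicClosure F) (j0 : Fin 3) (r : v.adicCompletion F)
    (c : Gal F → Pt E (AlgebraicClosure F)) : Prop :=
  ∃ m kap, Inv v l th j0 c m kap ∧ ((Even m ∧ IsSquare kap) ∨
    (¬ Even m ∧ IsSquare (kap * (3 * r ^ 2 + algebraMap F (v.adicCompletion F) (a : F)))))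

variable (F) in
/-- Auxiliary primes: `k` prime numbers `l i = 1 mod 8 M`, unramified in `F`, and for each of them
a place `vv i` above `l i`. -/
structure Aux (M k : ℕ) where
  l : Fin k → ℕ
  vv : Fin k → HeightOneSpectrum (𝓞 F)
  prime : ∀ i, (l i).Prime
  inj : Function.Injective l
  one : ∀ i, l i ≡ 1 [MOD 8 * M]
  disc : ∀ i, ¬ ((l i : ℤ) ∣ NumberField.discr F)
  mem : ∀ i, ((l i : ℕ) : 𝓞 F) ∈ (vv i).asIdeal

variable {M k : ℕ}

/-- The product of the auxiliary primes. -/
def Aux.L (X : Aux F M k) : ℕ := ∏ i, X.l i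

/-- The product of the auxiliary primes with index in `I`. -/
def Aux.D (X : Aux F M k) (I : Finset (Fin k)) : ℕ := ∏ i ∈ I, X.l i

/-- The set of places above the auxiliary primes. -/
def Aux.P (X : Aux F M k) : Set (HeightOneSpectrum (𝓞 F)) := {v | ((X.L : ℕ) : 𝓞 F) ∈ v.asIdeal}

/-- The condition at a place above an auxiliary prime: type (1)(2) at the places `vv i`, type (3)
at the others. -/
def Aux.ty (X : Aux F M k) (v : HeightOneSpectrum (𝓞 F)) (a b : res v) : Prop :=
  ((∃ i, X.vv i = v) → ty12 a b) ∧ ((¬ ∃ i, X.vv i = v) → ty3 a b)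

/-- The family of curves. -/
def Aux.Fam (X : Aux F M k) (q : 𝓞 F × 𝓞 F) : Prop :=
  (∀ v ∈ X.P, X.ty v (red v q.1) (red v q.2)) ∧
  (∀ v : HeightOneSpectrum (𝓞 F), v ∉ X.P → ((M : ℕ) : 𝓞 F) ∉ v.asIdeal →
    4 * q.1 ^ 3 + 27 * q.2 ^ 2 ∉ v.asIdeal ^ 2)

/-- The local density of the conditions at `v`. -/
noncomputable def Aux.tau (X : Aux F M k) (v : HeightOneSpectrum (𝓞 F)) : ℝ :=
  ({p : res v × res v | X.ty v p.1 p.2}.ncard : ℝ) / (Nat.card (res v) : ℝ) ^ 2

/-- The relaxed group: cocycles with values in `E[2]` locally soluble at the places dividing `M`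
and at the infinite places, and unit classes at the other places which are not auxiliary. -/
structure S1 (X : Aux F M k) (a b : 𝓞 F) (th : Fin 3 → AlgebraicClosure F)
    (c : Gal F → Pt (curve (a : F) (b : F)) (AlgebraicClosure F)) : Prop where
  cont : IsContCocycle (curve (a : F) (b : F)) c
  two : ∀ s, (2 : ℕ) • c s = 0
  small : ∀ v : HeightOneSpectrum (𝓞 F), ((M : ℕ) : 𝓞 F) ∈ v.asIdeal →
    LocTriv (curve (a : F) (b : F)) (v.adicCompletion F) c
  inf : ∀ v : InfinitePlace F, LocTriv (curve (a : F) (b : F)) v.Completion c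
  large : ∀ v : HeightOneSpectrum (𝓞 F), ((M : ℕ) : 𝓞 F) ∉ v.asIdeal → v ∉ X.P → UR v th c

/-- The strict group. -/
def S0 (X : Aux F M k) (a b : 𝓞 F) (th : Fin 3 → AlgebraicClosure F)
    (c : Gal F → Pt (curve (a : F) (b : F)) (AlgebraicClosure F)) : Prop :=
  S1 X a b th c ∧ ∀ i, Zv th ((X.vv i).adicCompletion F) c

/-- `x^3 + a x + b` is the characteristic polynomial of the pair `(A, B)`:
`det (x A - B) = det A (x^3 + a x + b)`, written in coefficients. -/
def Chr {R : Type u} [CommRing R] (A B : Matrix (Fin 3) (Fin 3) R) (a b : R) : Prop :=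
  (A.adjugate * B).trace = 0 ∧ (B.adjugate * A).trace = A.det * a ∧ - B.det = A.det * b

/-- Admissible pairs of integral matrices. -/
def Aux.Adm (X : Aux F M k)
    (P : Matrix (Fin 3) (Fin 3) (𝓞 F) × Matrix (Fin 3) (Fin 3) (𝓞 F)) : Prop :=
  (∀ v ∈ X.P, ∃ a b : res v, X.ty v a b ∧ Chr (P.1.map (red v)) (P.2.map (red v)) a b) ∧
  ∀ i, ∃ y : Fin 3 → res (X.vv i), y ≠ 0 ∧ y ⬝ᵥ (P.1.map (red (X.vv i))).mulVec y = 0 ∧
    y ⬝ᵥ (P.2.map (red (X.vv i))).mulVec y = 0

end

end Pool.Agent.Lib.MP_8cb858_nt.ZER
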