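import Pool.Agent.Lib.MP_8cb858_nt.ZER.Defs

/-!
# Specs, part G: counting with congruences, and the sieve

`n = [F:ℚ] = Module.finrank ℚ F`, `Nv = #(𝓞F/v)`, `vol s = prod_v s_v^{mult v}`,
`absNorm 𝔞 = #(𝓞F/𝔞)`. `X : Aux F M k`; the places in `X.P` are those above the `l i`; they are odd,
do not contain `M`, and `prod_{v in P} Nv = L^n` (the `l i` are unramified, UNR).
-/

namespace Pool.Agent.Lib.MP_8cb858_nt.ZER

open NumberField IsDedekindDomain Pool.Agent.Lib.MP_8cb858_nt.SEL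
open scoped Classical

universe u

/-- The integers of `F` in a box and in a residue class. -/
def BR {F : Type u} [Field F] [NumberField F] (𝔞 : Ideal (𝓞 F)) (r : 𝓞 F)
    (s : InfinitePlace F → ℝ) : Set (𝓞 F) :=
  {x | x - r ∈ 𝔞 ∧ ∀ v : InfinitePlace F, v (x : F) ≤ s v}

/-! ## G1. Integers in boxes and residue classes -/

/-- **RES.** Upper bound. Proof. As CNU: two different elements of the set differ by a nonzero
element of `𝔞`, so `prod_v |x-y|_v^{mult} ≥ absNorm 𝔞`. With `V = vol s/absNorm 𝔞`, `λ = 1/2` if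
`V ≤ 1` and `λ = (1/2) V^{-1/n}` otherwise, cells with sides `λ s_v/2` contain at most one element
of the set and `(5/λ)^n ≤ 10^n max(1, V)` cells meet the box. -/
def SpecRES : Prop :=
  ∀ (F : Type u) [Field F] [NumberField F], ∃ C : ℝ, 1 ≤ C ∧
    ∀ (𝔞 : Ideal (𝓞 F)) (r : 𝓞 F) (s : InfinitePlace F → ℝ), 𝔞 ≠ ⊥ → (∀ v, 0 < s v) →
      (BR 𝔞 r s).Finite ∧
      ((BR 𝔞 r s).ncard : ℝ) ≤ C * max 1 (vol s / (Ideal.absNorm 𝔞 : ℝ))

/-- **RLO.** Lower bound. Proof. Let `c0` be the constant of CNL. Let `R1` be a bound for all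
absolute values of a system of representatives `r'` of `𝓞F/𝔞` and `R0 = max(2 R1, 4)`. The box with
sides `s_v/4 ≥ 1` contains `≥ c0 vol(s/4) = c0 4^{-n} vol s` integers, and by the pigeonhole
principle one class modulo `𝔞` contains `≥ c0 4^{-n} vol s/absNorm 𝔞` of them; the differences `y`
with a fixed one are in `𝔞` and in the box with sides `s_v/2`; `r' + y`, `r' ≡ r`, is in
`BR 𝔞 r s`. -/
def SpecRLO : Prop :=
  ∀ (F : Type u) [Field F] [NumberField F], ∃ c : ℝ, 0 < c ∧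
    ∀ 𝔞 : Ideal (𝓞 F), 𝔞 ≠ ⊥ → ∃ R0 : ℝ, ∀ (r : 𝓞 F) (s : InfinitePlace F → ℝ),
      (∀ v, R0 ≤ s v) → c * vol s / (Ideal.absNorm 𝔞 : ℝ) ≤ ((BR 𝔞 r s).ncard : ℝ)

/-- **CRC.** Chinese remainder count. Proof. `(L) = prod_{v in P} v` with distinct maximal ideals:
`v^2` does not divide `L` (each `l i` is unramified by UNR, and the `l i` are distinct primes, so
exactly one of them is in `v`). `(𝓞F/L)^ι = prod_{v in P} (𝓞F/v)^ι`. -/
def SpecCRC : Prop :=
  ∀ (F : Type u) [Field F] [NumberField F] (M k : ℕ) (X : Aux F M k),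
    X.P.Finite ∧ (∀ v ∈ X.P, (2 : 𝓞 F) ∉ v.asIdeal ∧ (3 : 𝓞 F) ∉ v.asIdeal ∧
      ((M : ℕ) : 𝓞 F) ∉ v.asIdeal) ∧
    (∏ᶠ v ∈ X.P, (Nat.card (res v) : ℝ)) = (X.L : ℝ) ^ Module.finrank ℚ F ∧
    (Ideal.absNorm (Ideal.span {((X.L : ℕ) : 𝓞 F)}) : ℝ) = (X.L : ℝ) ^ Module.finrank ℚ F ∧
    ∀ (ι : Type) [Fintype ι] (S : ∀ v : HeightOneSpectrum (𝓞 F), Set (ι → res v)),
      ∃ T : Finset (ι → 𝓞 F), (T.card : ℝ) = ∏ᶠ v ∈ X.P, ((S v).ncard : ℝ) ∧
        (∀ y ∈ T, ∀ v ∈ X.P, (fun i => red v (y i)) ∈ S v) ∧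
        (∀ y : ι → 𝓞 F, (∀ v ∈ X.P, (fun i => red v (y i)) ∈ S v) →
          ∃ y' ∈ T, ∀ i, y i - y' i ∈ Ideal.span {((X.L : ℕ) : 𝓞 F)}) ∧
        (∀ y ∈ T, ∀ y' ∈ T, (∀ i, y i - y' i ∈ Ideal.span {((X.L : ℕ) : 𝓞 F)}) → y = y')

/-! ## G2. Pairs of ternary forms over a finite field -/

/-- **OMA.** The number of `B` with given `A` and given characteristic polynomial.
Proof. `q = #k` odd, `A` nondegenerate. Both sides are invariant under `A → g^T A g`,
`B → g^T B g` (`Chr` is the identity `det(xA - B) = det A (x^3+ax+b)`). `A` has an isotropic vector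
(Chevalley-Warning), so we may assume `A = [[0,0,1],[0,ε,0],[1,0,0]]`, `det A = -ε`. Write
`B = (b_ij)`; trace condition: `b22 = -2ε b13` (indices 1,2,3). (I) `b11 = 0`:
`det(xA - B) = b12^2 b33 + 2 b12 b23 (x-b13) - (εx - b22)(x-b13)^2`; for `b12 = 0` the polynomial
has a double root, excluded; for given `b12 ≠ 0` and `b13` the pair `(b23, b33)` is determined by
`(a,b)`: `q(q-1)` matrices. (II) `b11 ≠ 0`: the `q` changes `x_2 → x_2 + t x_1`,
`x_3 → x_3 - ε t x_2 - ...` fixing `A` (a one-parameter unipotent group of the orthogonal group)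
move `b12` through all values, so the number is `q` times the number with `b12 = 0`, for which
`ε f(x) = (εx - b22)((x-b13)^2 - b11 b33) - b11 b23^2`, i.e. `a = -3b13^2 - b11b33` gives `b33` and
then `b11 b23^2 = - ε f(-2 b13)`: for each `b13` exactly `q - 1` pairs `(b11, b23)` (if
`f(-2b13) ≠ 0`: `b23 ≠ 0` arbitrary; otherwise `b23 = 0`). Number `q * q (q-1)`.
Total `q(q-1) + q^2(q-1) = q^3 - q ≤ q^3`. (Checked by computer for `q = 5, 7`.) -/
def SpecOMA : Prop :=
  ∀ (k : Type u) [Field k] [Finite k] (A : Matrix (Fin 3) (Fin 3) k) (a b : k),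
    (2 : k) ≠ 0 → A.IsSymm → A.det ≠ 0 → 4 * a ^ 3 + 27 * b ^ 2 ≠ 0 →
    {B : Matrix (Fin 3) (Fin 3) k | B.IsSymm ∧ Chr A B a b}.ncard ≤ Nat.card k ^ 3

/-- **OMB.** Type (1)(2): at most half of the `B` have a common zero with `A`.
Proof. Let `Ω` be the set. (1) Count pairs `(B, point)`, `B` in `Ω`, point of the projective plane
over `k` which is a common zero. The conic `A = 0` has `q+1` points; for each of them choose
coordinates with the point `e_1` and `A = [[0,0,1],[0,ε,0],[1,0,0]]`: by case (I) of OMA there are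
exactly `q(q-1)` matrices `B` with `b11 = 0` and `Chr`. Total `q(q-1)(q+1) = q^3 - q`.
(2) Every `B` in `Ω` has at least two common zeros: let `T = A^{-1}B`, `A`-selfadjoint with
characteristic polynomial `f`, `w` an eigenvector for the root `ρ` of `f` in `k`; `A(w,w) ≠ 0`
(`f` separable: otherwise `w` is orthogonal to itself and to all other eigenvectors over the
algebraic closure). If `x` is a common zero put `x' = x - 2 (A(x,w)/A(w,w)) w`: `A(x',x') = 0`, and
`B(x',x') = B(x,x) - 4 (A(x,w)/A(w,w)) B(x,w) + 4 (A(x,w)/A(w,w))^2 B(w,w) = 0`, because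
`B(x,w) = ρ A(x,w)`. `x'` is not proportional to `x`: otherwise `A(x,w) = 0` or `x` is
proportional to `w`; the second is impossible (`A(w,w) ≠ 0 = A(x,x)`); if `A(x,w) = 0` then `x` is in
the `T`-stable plane `w^⊥`, on which `A` is nondegenerate and `T` has no eigenvector in `k` (type
(1)(2)); `A(x,x) = 0 = A(Tx,x)` gives `Tx` in the line of `w^⊥` orthogonal to `x`, which is the line
of `x`: an eigenvector, contradiction. So `2 #Ω ≤ q^3 - q ≤ q^3`. -/
def SpecOMB : Prop :=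
  ∀ (k : Type u) [Field k] [Finite k] (A : Matrix (Fin 3) (Fin 3) k) (a b : k),
    (2 : k) ≠ 0 → A.IsSymm → A.det ≠ 0 → ty12 a b →
    2 * {B : Matrix (Fin 3) (Fin 3) k | B.IsSymm ∧ Chr A B a b ∧
      ∃ y : Fin 3 → k, y ≠ 0 ∧ y ⬝ᵥ A.mulVec y = 0 ∧ y ⬝ᵥ B.mulVec y = 0}.ncard ≤ Nat.card k ^ 3

/-- **OMN.** Type (1)(2): at most half of the `B` have no common zero with `A`. (Used later.)
Proof. By OMA (its proof gives `#Ω = q^3 - q` for the set `Ω` of all `B` with `Chr A B a b`, see the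
cases (I), (II); only `≤` is needed) and step (1) of OMB the number of pairs (`B` in `Ω`, common zero in
the projective plane over `k`) is exactly `q(q-1)(q+1) = q^3 - q`. Every `B` in `Ω` has at most two
common zeros: for two different common zeros `x, y` `A(x,y) ≠ 0` (a nondegenerate ternary form has
no totally isotropic plane), and for `ρ = B(x,y)/A(x,y)` the form `ρA - B` vanishes on the plane
spanned by `x, y`, so `det(ρA - B) = 0` and `ρ` is the unique root of `f` in `k`. If there were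
three common zeros `x, y, z`, they would be linearly independent (a third isotropic line in the
plane of `x, y`, on which `A` is a hyperbolic plane, does not exist), and `ρA - B` would vanish at
all pairs, so `B = ρA`, `f = (X - ρ)^3`, contradiction to the discriminant. So at least
`(q^3-q)/2` elements of `Ω` have a common zero, and at most `(q^3-q)/2` have none. -/
def SpecOMN : Prop :=
  ∀ (k : Type u) [Field k] [Finite k] (A : Matrix (Fin 3) (Fin 3) k) (a b : k),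
    (2 : k) ≠ 0 → A.IsSymm → A.det ≠ 0 → ty12 a b →
    2 * {B : Matrix (Fin 3) (Fin 3) k | B.IsSymm ∧ Chr A B a b ∧
      ¬ ∃ y : Fin 3 → k, y ≠ 0 ∧ y ⬝ᵥ A.mulVec y = 0 ∧ y ⬝ᵥ B.mulVec y = 0}.ncard ≤ Nat.card k ^ 3

/-! ## G3. Reduced admissible pairs -/

/-- **BZ1.** Reduced pairs of the first type with conditions at the auxiliary places. `Om v` is a
set of pairs of matrices over the residue field of `v`, of relative density at most `w v`.
Proof. Let `B0` be so large that for every `A'` occurring in `R1 F C ρ` (they lie in a finite set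
depending only on `F, C`, CNU) the determinant and all nonzero entries of `adj A'` have norm of
absolute value `< B0`; then they are not in any `v ∈ P` (`v` contains some `l i > B0`, and `l i` divides
the norm of every element of `v`). Fix `A'` and an entry `(i0, j0)` of `adj A'` which is not zero; as
in BX1 `B'_{i0j0}` is determined by the five other entries of `B'`. For `v` in `P` let `Ω_v` be the set
of the symmetric `B` over `res v` with `trace(adj(A') B) = 0` and `(A' mod v, B) ∈ Om v`: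
`#Ω_v ≤ w v Nv^5` by hypothesis (`det A' ≠ 0` modulo `v`). The five entries of `B'` modulo `v` determine
`B'` modulo `v` (`adj(A')_{i0j0}` and 2 are units modulo `v`). So by CRC (`ι` of five elements, `S v` =
the projections of the `Ω_v`) the five entries of `B'` lie in `≤ prod_v #Ω_v` classes modulo `L`, and
by RES each class contains `≤ (C1 max(1, C^n vol ρ/L^n))^5 = (C1 C^n vol ρ/L^n)^5` vectors as
`L^n ≤ vol ρ`. As `prod_v Nv^5 = L^{5n}` the total is `≤ #A' * (C1C^n)^5 vol ρ^5 prod_v w v`. -/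
def SpecBZ1 : Prop :=
  ∀ (F : Type u) [Field F] [NumberField F] (C : ℝ), 1 ≤ C → ∃ (C' : ℝ) (B0 : ℕ), 0 < C' ∧
    ∀ (M k : ℕ) (X : Aux F M k), (∀ i, B0 < X.l i) →
      ∀ (Om : ∀ v : HeightOneSpectrum (𝓞 F),
          Set (Matrix (Fin 3) (Fin 3) (res v) × Matrix (Fin 3) (Fin 3) (res v)))
        (w : HeightOneSpectrum (𝓞 F) → ℝ),
      (∀ v ∈ X.P, ∀ A : Matrix (Fin 3) (Fin 3) (res v), A.IsSymm → A.det ≠ 0 →
        ({B : Matrix (Fin 3) (Fin 3) (res v) | B.IsSymm ∧ (A.adjugate * B).trace = 0 ∧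
          (A, B) ∈ Om v}.ncard : ℝ) ≤ w v * (Nat.card (res v) : ℝ) ^ 5) →
      ∀ ρ : InfinitePlace F → ℝ, (∀ v, 1 ≤ ρ v) → (X.L : ℝ) ^ Module.finrank ℚ F ≤ vol ρ →
        ({P | P ∈ R1 F C ρ ∧ ∀ v ∈ X.P, (P.1.map (red v), P.2.map (red v)) ∈ Om v}.ncard : ℝ) ≤
          C' * (∏ᶠ v ∈ X.P, w v) * vol ρ ^ 5

/-- **BZ2.** Reduced pairs of the second type, level `j`, with conditions.
Proof. As BZ1 with `A' = antidiag(d, e, d)`, `d, e` units modulo all `v` in `P` (`l i > B0`); the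
relation is `2 d e B'_{02} + d^2 B'_{11} = 0` (see BX2), so `B'` is determined by the entries
`00, 01, 02, 12, 22`, lying in boxes of volumes `V 2^{-2jn}, V 2^{-jn}, V, V 2^{jn}, V 2^{2jn}`,
`V = C^n vol ρ`, all of them `≥ L^n`; so each class modulo `L` contains at most `C1^5` times the
product of the volumes divided by `L^{5n}`, `= C1^5 V^5/L^{5n}`. -/
def SpecBZ2 : Prop :=
  ∀ (F : Type u) [Field F] [NumberField F] (C : ℝ), 1 ≤ C → ∃ (C' : ℝ) (B0 : ℕ), 0 < C' ∧
    ∀ (M k : ℕ) (X : Aux F M k), (∀ i, B0 < X.l i) →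
      ∀ (Om : ∀ v : HeightOneSpectrum (𝓞 F),
          Set (Matrix (Fin 3) (Fin 3) (res v) × Matrix (Fin 3) (Fin 3) (res v)))
        (w : HeightOneSpectrum (𝓞 F) → ℝ),
      (∀ v ∈ X.P, ∀ A : Matrix (Fin 3) (Fin 3) (res v), A.IsSymm → A.det ≠ 0 →
        ({B : Matrix (Fin 3) (Fin 3) (res v) | B.IsSymm ∧ (A.adjugate * B).trace = 0 ∧
          (A, B) ∈ Om v}.ncard : ℝ) ≤ w v * (Nat.card (res v) : ℝ) ^ 5) →
      ∀ (ρ : InfinitePlace F → ℝ) (j : ℕ), (∀ v, 1 ≤ ρ v) →
        (X.L : ℝ) ^ Module.finrank ℚ F * (2 : ℝ) ^ (2 * j * Module.finrank ℚ F) ≤ vol ρ →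
        ({P | P ∈ R2 F C ρ j ∧ ∀ v ∈ X.P, (P.1.map (red v), P.2.map (red v)) ∈ Om v}.ncard : ℝ) ≤
          C' * (∏ᶠ v ∈ X.P, w v) * vol ρ ^ 5

/-- **OMT.** The relative density of the admissible pairs modulo `v`.
Proof. `T_v = {(a,b) : X.ty v a b}`, `#T_v = tau v Nv^2`. The set is contained in the union over
`(a,b)` in `T_v` of the `B` with `Chr A B a b` (and, if `v` is one of the `vv i`, with a common
nontrivial zero with `A`): OMA and OMB (the discriminants are not zero by the definition of the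
types; `2 ≠ 0` in `res v` by CRC). -/
def SpecOMT : Prop :=
  ∀ (F : Type u) [Field F] [NumberField F] (M k : ℕ) (X : Aux F M k), ∀ v ∈ X.P,
    ∀ A : Matrix (Fin 3) (Fin 3) (res v), A.IsSymm → A.det ≠ 0 →
      ({B : Matrix (Fin 3) (Fin 3) (res v) | B.IsSymm ∧
        (∃ a b : res v, X.ty v a b ∧ Chr A B a b) ∧
        ((∃ i, X.vv i = v) → ∃ y : Fin 3 → res v, y ≠ 0 ∧ y ⬝ᵥ A.mulVec y = 0 ∧
          y ⬝ᵥ B.mulVec y = 0)}.ncard : ℝ) ≤
        ((if ∃ i, X.vv i = v then (1 / 2 : ℝ) else 1) * X.tau v) * (Nat.card (res v) : ℝ) ^ 5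

/-- **CHR.** The characteristic polynomial of the pair attached to a cocycle.
Proof. By DET over `Fbar` `det(xA - B) = det A (x^3+ax+b)` for all `x` in `F` (infinite field);
compare coefficients: `det(xA - B) = det A x^3 - tr(adj(A) B) x^2 + tr(adj(B) A) x - det B`. -/
def SpecCHR : Prop :=
  ∀ (F : Type u) [Field F] [CharZero F] (a b : F)
    (c : Gal F → Pt (curve a b) (AlgebraicClosure F)) (A B : Matrix (Fin 3) (Fin 3) F),
    Att a b c A B → Chr A B a b

/-- **CL0.** Reduced models, starting from an integral model (extracted from the proof of CLS).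
Proof. The proof of CLS, with the conclusion of PRE as a hypothesis. -/
def SpecCL0 : Prop :=
  ∀ (F : Type u) [Field F] [NumberField F], ∃ C : ℝ, 1 ≤ C ∧
    ∀ (ρ : InfinitePlace F → ℝ) (a b : 𝓞 F)
      (c : Gal F → Pt (curve (a : F) (b : F)) (AlgebraicClosure F))
      (A B : Matrix (Fin 3) (Fin 3) (𝓞 F)) (U : InfinitePlace F → Matrix (Fin 3) (Fin 3) ℂ),
    (∀ v, 1 ≤ ρ v) → (a, b) ∈ Bx F ρ → (∀ s, (2 : ℕ) • c s = 0) →
    c ∉ Coboundaries 2 (curve (a : F) (b : F)) →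
    Att (a : F) (b : F) c (inc A) (inc B) → A.IsSymm → B.IsSymm → A.det = -1 →
    Maj (inc A) (inc B) ρ U →
    (∃ P ∈ R1 F C ρ, Att (a : F) (b : F) c (inc P.1) (inc P.2)) ∨
    (∃ (k : ℕ) (Φ : 𝓞 F → Matrix (Fin 3) (Fin 3) (𝓞 F) × Matrix (Fin 3) (Fin 3) (𝓞 F)),
      Set.InjOn Φ {q | ∀ v : InfinitePlace F, v (q : F) ≤ 2 ^ k} ∧
      ∀ q : 𝓞 F, (∀ v : InfinitePlace F, v (q : F) ≤ 2 ^ k) → Φ q ∈ R2 F C ρ k ∧
        Att (a : F) (b : F) c (inc (Φ q).1) (inc (Φ q).2))

/-- **PRZ.** Integral models of strict classes.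
Proof. BAS gives `th', Z, A, B` with `Nrm` (another ordering of the roots; `S0`, `UR`, `Zv` do not
depend on the ordering). `LInt v A B` for every finite `v`: if `M ∈ v`: LO3 (`LocTriv` by
`S1.small`); if `v` is not in `P` and `M` is not in `v`: LRG (`UR` by `S1.large`,
`4a^3+27b^2 ∉ v^2` by `Fam`); if `v` is in `P`: `Zv` holds, by `S0` if `v = vv i` and otherwise by TY3
(type (3) by `Fam`; the prime `l i` in `v` is not in `v^2`, UNR), and ZLO gives `g` with integral Gram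
matrices. INT, ARC and BCH conclude as in PRE. -/
def SpecPRZ : Prop :=
  ∀ (F : Type u) [Field F] [NumberField F] (M k : ℕ) (X : Aux F M k) (a b : 𝓞 F)
    (th : Fin 3 → AlgebraicClosure F)
    (c : Gal F → Pt (curve (a : F) (b : F)) (AlgebraicClosure F)) (ρ : InfinitePlace F → ℝ),
    4 * a ^ 3 + 27 * b ^ 2 ≠ 0 → IsRoots (algebraMap F _ (a : F)) (algebraMap F _ (b : F)) th →
    X.Fam (a, b) → S0 X a b th c →
    (∀ v, 0 < ρ v ∧ v (a : F) ≤ ρ v ^ 2 ∧ v (b : F) ≤ ρ v ^ 3) →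
    ∃ (A B : Matrix (Fin 3) (Fin 3) (𝓞 F)) (U : InfinitePlace F → Matrix (Fin 3) (Fin 3) ℂ),
      Att (a : F) (b : F) c (inc A) (inc B) ∧ A.IsSymm ∧ B.IsSymm ∧ A.det = -1 ∧
      Maj (inc A) (inc B) ρ U

/-- **ADM.** The pairs attached to strict classes are admissible.
Proof. `Chr (inc P.1) (inc P.2) a b` by CHR, so `Chr P.1 P.2 a b` over `𝓞F`, and modulo every `v`; the
types of `(a,b)` modulo `v ∈ P` are given by `Fam`. Common zero at `v = vv i`: `Att` gives `th', Z`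
(`th'` a permutation of `th`), `Zv` signs `e`; `K = F_v`, `ι = emb`. `y = (ι Z)^{-1} e` is fixed by all
`s` (the matrix `ι Z` and the vector `e` transform by the same signed permutation, see LO3), so
`y` is in `K^3`, `y ≠ 0`, and `y^T A y = sum e_j^2/fp j = sum 1/fp j = 0`,
`y^T B y = sum τ_j/fp j = 0`. Divide by the coordinate of largest valuation (so some coordinate
is a unit, all integral), take residues: `O_v/(max) = 𝓞F/v`. -/
def SpecADM : Prop :=
  ∀ (F : Type u) [Field F] [NumberField F] (M k : ℕ) (X : Aux F M k) (a b : 𝓞 F)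
    (th : Fin 3 → AlgebraicClosure F)
    (c : Gal F → Pt (curve (a : F) (b : F)) (AlgebraicClosure F))
    (P : Matrix (Fin 3) (Fin 3) (𝓞 F) × Matrix (Fin 3) (Fin 3) (𝓞 F)),
    4 * a ^ 3 + 27 * b ^ 2 ≠ 0 → IsRoots (algebraMap F _ (a : F)) (algebraMap F _ (b : F)) th →
    X.Fam (a, b) → S0 X a b th c → Att (a : F) (b : F) c (inc P.1) (inc P.2) → X.Adm P

/-- **TOZ.** Few curves of the family have a nontrivial strict class.
Proof. Let `T` be the set. For `q` in `T` choose `th, c`; PRZ and CL0 give a pair `P` of type 1 or a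
level `j` and a family `Φ`, all attached to `c`, so admissible (ADM). A pair is attached to at most
one `q` (INJ, first part). So the number of `q` of type 1 is at most `#{P ∈ R1 : Adm}`, and with
CNL (`s_v = 2^j`, constant `c0`) `#type(2,j) c0 2^{jn} ≤ #{P ∈ R2(j) : Adm}`. `Om v` = the pairs
`(A,B)` with `∃ (a,b), X.ty v a b ∧ Chr A B a b` and, if `v` is one of the `vv i`, with a common
nontrivial zero; `w v = (1/2 or 1) tau v` (OMT). As the `vv i` are distinct (the `l i` are),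
`prod w v = ε := (1/2)^k prod tau`, `ε > 0` by NET. Type 1: BZ1. Levels with
`L^n 2^{2jn} ≤ vol ρ`: BZ2, total `≤ 2 (C'/c0) ε vol ρ^5`; the other levels: BX2,
`#R2(j) ≤ C'' vol ρ^5`, total `≤ 2 (C''/c0) 2^{-j0 n} vol ρ^5` with `j0` the first such level,
`2^{-j0 n} ≤ (L^n/vol ρ)^{1/2}`, which is `≤ ε` for `vol ρ` large. -/
def SpecTOZ : Prop :=
  ∀ (F : Type u) [Field F] [NumberField F], ∃ (C : ℝ) (B0 : ℕ), 0 < C ∧
    ∀ (M k : ℕ) (X : Aux F M k), (∀ i, B0 < X.l i) → ∃ V0 : ℝ,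
      ∀ ρ : InfinitePlace F → ℝ, (∀ v, 1 ≤ ρ v) → V0 ≤ vol ρ →
        ({q : 𝓞 F × 𝓞 F | q ∈ Bx F ρ ∧ X.Fam q ∧ ∃ (th : Fin 3 → AlgebraicClosure F)
          (c : Gal F → Pt (curve (q.1 : F) (q.2 : F)) (AlgebraicClosure F)),
          IsRoots (algebraMap F _ (q.1 : F)) (algebraMap F _ (q.2 : F)) th ∧ S0 X q.1 q.2 th c ∧
          c ∉ Coboundaries 2 (curve (q.1 : F) (q.2 : F))}.ncard : ℝ) ≤
          C * ((1 / 2 : ℝ) ^ k * ∏ᶠ v ∈ X.P, X.tau v) * vol ρ ^ 5

/-! ## G4. The size of the family -/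

/-- **NET.** Both types occur. Proof. `k = res v`, `q = #k ≥ 5`, characteristic `≠ 2, 3`. Type
(1)(2): let `X^2+sX+t` be irreducible over `k`; `(X^2+sX+t)(X-s) = X^3 + (t-s^2) X - st` has the
only root `s` (`s` is not a root of the irreducible factor) and three distinct roots in an algebraic
closure. Type (3): let `X^3+uX^2+...` be irreducible (exists over a finite field), substitute
`X - u/3`. A cubic without root is separable over a finite field (a multiple root would be fixed by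
Frobenius, hence in `k`; or: irreducible polynomials over finite fields are separable). -/
def SpecNET : Prop :=
  ∀ (F : Type u) [Field F] [NumberField F] (M k : ℕ) (X : Aux F M k), ∀ v ∈ X.P,
    0 < X.tau v ∧ X.tau v ≤ 1

/-- **PIF.** Prime ideals: few of norm `≤ x`, and the sum of `Nv^{-2}` converges.
Proof. Above every prime number `p` there are at most `n` places, and `Nv` is a power of `p`, so the
number of places with `Nv ≤ x` is at most `n π(x)`, and `π(x)/x → 0` (Chebyshev,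
`Mathlib.NumberTheory.Chebyshev`, or: the integers prime to a primorial have small density). The
sum of `Nv^{-2}` over the places above primes `> z` is at most `n sum_{p > z} p^{-2} ≤ 2n/z`. -/
def SpecPIF : Prop :=
  ∀ (F : Type u) [Field F] [NumberField F],
    (∀ ε : ℝ, 0 < ε → ∃ x0 : ℝ, ∀ x : ℝ, x0 ≤ x →
      {v : HeightOneSpectrum (𝓞 F) | (Nat.card (res v) : ℝ) ≤ x}.Finite ∧
      ({v : HeightOneSpectrum (𝓞 F) | (Nat.card (res v) : ℝ) ≤ x}.ncard : ℝ) ≤ ε * x) ∧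
    (∀ ε : ℝ, 0 < ε → ∃ z : ℕ, ∀ S : Finset (HeightOneSpectrum (𝓞 F)),
      (∀ v ∈ S, ∀ p : ℕ, p.Prime → ((p : ℕ) : 𝓞 F) ∈ v.asIdeal → z < p) →
      ∑ v ∈ S, ((Nat.card (res v) : ℝ) ^ 2)⁻¹ ≤ ε) ∧
    ∃ C : ℝ, ∀ x : ℝ, 1 ≤ x → ∀ S : Finset (HeightOneSpectrum (𝓞 F)),
      (∀ v ∈ S, (Nat.card (res v) : ℝ) ≤ x) →
      ∑ v ∈ S, ((Nat.card (res v) : ℝ))⁻¹ ≤ C * (1 + Real.log x)

/-- **TAI.** The tail of the squarefree sieve.
Proof. `z` will be large in terms of `F, η`. `Va = vol ρ^2`, `Vb = vol ρ^3`, `Δ = 4a^3+27b^2`,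
`C1` the constant of RES, `q = Nv`. Let `T` be the residue classes modulo `L` of pairs satisfying the
types at `P` (CRC with `ι = Fin 2`): `#T/L^{2n} = prod tau`; for a class `a'` modulo `L` let `T_{a'}` be
the classes `b'` with `(a',b')` in `T`. Bad pairs `(a,b)`: there is `v ∉ P`, `M ∉ v` with
`Δ ∈ v^2`; then `v` does not contain any prime `≤ z`, in particular not `6`.
(i) `a = 0`: at most `C1 max(1,Vb) = o(Va Vb)` pairs.
(ii) `a ≠ 0`, `a ∈ v`: then `b ∈ v` (`27 b^2 ∈ v`), `q ≤ |norm a| ≤ Va`. Number of such `(a,b)` in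
given classes modulo `L` (RES for the ideal `(L) v`, coprime): `≤ C1^2 max(1, Va/(L^n q))
max(1, Vb/(L^n q))`. For `q ≤ Va/L^n`: `≤ C1^2 Va Vb/(L^{2n} q^2)`, sum over the classes in `T`
and over `v`: `≤ C1^2 prod tau Va Vb sum q^{-2}`. For `Va/L^n < q ≤ Va`: `≤ C1^2 L^{2n} ... Vb/q`
per class up to a constant depending on `X` (note `Vb ≥ Va`), sum `≤ C_X Vb sum_{q ≤ Va} 1/q =
O_X(Vb log Va) = o(Va Vb)` (PIF).
(iii) `a ∉ v`: `27 b^2 ≡ -4a^3` modulo `v^2` has at most 2 solutions `b` modulo `v^2` (odd residue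
characteristic, `b` is a unit: if `b^2 ≡ b'^2` then `v^2` divides `(b-b')(b+b')` and `v` does not
divide both), so given `a` and a class modulo `L` the number of `b` is
`≤ 2 C1 max(1, Vb/(L^n q^2))`, and it is 0 unless `q^2 ≤ |norm Δ| ≤ 31^n Va^3 = 31^n Vb^2` (`Δ ≠ 0` on
`Bx`). For `q^2 ≤ Vb/L^n`: sum over `a` in the box (RES for `(L)`: `≤ C1 Va/L^n` in each class),
over `b'` in `T_{a'}`, over `v`: `≤ 2 C1^2 prod tau Va Vb sum q^{-2}`. For the other `v`: at most
`2 C1` for each `a`, each class and each `v` with `q ≤ 31^{n/2} Vb`: total `≤ C_X Va * #{v : q ≤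
6^n Vb} = o(Va Vb)` (PIF). So the total is `≤ (3 C1^2 sum_{v : q > z} q^{-2} prod tau + o(1)) Va Vb`,
`≤ η prod tau Va Vb` for `z` large (PIF) and all `ρ v ≥ R0`. -/
def SpecTAI : Prop :=
  ∀ (F : Type u) [Field F] [NumberField F] (η : ℝ), 0 < η → ∃ z : ℕ,
    ∀ (M k : ℕ) (X : Aux F M k), (∀ p : ℕ, p.Prime → p ≤ z → p ∣ M) → 0 < M → ∃ R0 : ℝ,
      ∀ ρ : InfinitePlace F → ℝ, (∀ v, R0 ≤ ρ v) →
        ({q : 𝓞 F × 𝓞 F | q ∈ Bx F ρ ∧ (∀ v ∈ X.P, X.ty v (red v q.1) (red v q.2)) ∧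
          ∃ v : HeightOneSpectrum (𝓞 F), v ∉ X.P ∧ ((M : ℕ) : 𝓞 F) ∉ v.asIdeal ∧
            4 * q.1 ^ 3 + 27 * q.2 ^ 2 ∈ v.asIdeal ^ 2}.ncard : ℝ) ≤
          η * (∏ᶠ v ∈ X.P, X.tau v) * vol ρ ^ 5

/-- **MNN.** The main term. Proof. CRC (`ι = Fin 2`) gives `#T = prod (tau v Nv^2)` classes modulo `L`;
`N` is prime to `L` (it divides `M`, and `l i ≡ 1 mod 8M`), so for each of them and the class of
`(a0, b0)` modulo `N` there is a class modulo `N L`. By RLO for the ideal `(N L)` with `s = ρ^2` and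
`s = ρ^3` each class of pairs contains at least `(c0/(N L)^n)^2 vol ρ^5` pairs of the box. At most
`C1 (vol ρ)^2 * 2` pairs have `4a^3+27b^2 = 0` (two values of `b` for each `a`), negligible for large
`ρ`. So `c = c0^2/(2 N^{2n})`. -/
def SpecMNN : Prop :=
  ∀ (F : Type u) [Field F] [NumberField F] (N : ℕ), 0 < N → ∃ c : ℝ, 0 < c ∧
    ∀ (M k : ℕ) (X : Aux F M k) (a0 b0 : 𝓞 F), N ∣ M → 0 < M → ∃ R0 : ℝ,
      ∀ ρ : InfinitePlace F → ℝ, (∀ v, R0 ≤ ρ v) →
        c * (∏ᶠ v ∈ X.P, X.tau v) * vol ρ ^ 5 ≤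
        ({q : 𝓞 F × 𝓞 F | q ∈ Bx F ρ ∧ (∀ v ∈ X.P, X.ty v (red v q.1) (red v q.2)) ∧
          ((N : ℕ) : 𝓞 F) ∣ q.1 - a0 ∧ ((N : ℕ) : 𝓞 F) ∣ q.2 - b0}.ncard : ℝ)

/-- **LWZ.** Lower bound for the family in a residue class. Proof. MNN with constant `c1`, TAI with
`η = c1/2` gives `z`; `M = 6 N (z!)`; `c = c1/2`. -/
def SpecLWZ : Prop :=
  ∀ (F : Type u) [Field F] [NumberField F] (N : ℕ), 0 < N → ∃ (M : ℕ) (c : ℝ), 0 < c ∧
    0 < M ∧ 6 * N ∣ M ∧
    ∀ (k : ℕ) (X : Aux F M k) (a0 b0 : 𝓞 F), ∃ R0 : ℝ,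
      ∀ ρ : InfinitePlace F → ℝ, (∀ v, R0 ≤ ρ v) →
        c * (∏ᶠ v ∈ X.P, X.tau v) * vol ρ ^ 5 ≤
        ({q : 𝓞 F × 𝓞 F | q ∈ Bx F ρ ∧ X.Fam q ∧
          ((N : ℕ) : 𝓞 F) ∣ q.1 - a0 ∧ ((N : ℕ) : 𝓞 F) ∣ q.2 - b0}.ncard : ℝ)

/-! ## G5. Assembly -/

/-- **DIR.** Auxiliary primes exist. Proof. Dirichlet's theorem (`Nat.forall_exists_prime_gt_and_eq_mod`
or a similar name): infinitely many primes `≡ 1 mod 8M`; choose `k` distinct ones larger than `B0`
and than `|discr F|` (the discriminant is not zero); above every prime there is a place. -/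
def SpecDIR : Prop :=
  ∀ (F : Type u) [Field F] [NumberField F] (M k B0 : ℕ), 0 < M →
    ∃ X : Aux F M k, ∀ i, B0 < X.l i

/-- **SEZ.** Selmer cocycles of the twists are in the relaxed group.
Proof. `D = X.D I`, a product of distinct `l i ≡ 1 mod 8M`, so `D ≡ 1 mod 8M`. TRC with `d = D` gives
`c` with `Same`; `c ∈ Coboundaries` implies `c' ∈ Coboundaries`. For every finite `v` PNT (1) with BIG
(for the curve of the twist, `4(D^2a)^3+27(D^3b)^2 ≠ 0`) gives `Pos ... D ... i c` for all `i`, and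
for infinite `v` PNT with BGI. If `M ∈ v`, or `v` infinite: SQD and LTT give `LocTriv`. If `v ∉ P`,
`M ∉ v`: `D ∉ v` (`D ∣ L`) and LPU gives `UR`. So `S1 X a b th c`. At `vv i` use VPT with `l = l i`,
`d = D`: if `i ∉ I` then `D ∉ vv i` (the `l j`, `j ≠ i`, are prime to `l i`): `UU`; if `i ∈ I` then
`D ∈ vv i`, `D ∉ (vv i)^2` (UNR for `l i`, and `D/l i` is not in `vv i`): `RR`. -/
def SpecSEZ : Prop :=
  ∀ (F : Type u) [Field F] [NumberField F] (M k : ℕ) (X : Aux F M k) (a b : 𝓞 F)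
    (th : Fin 3 → AlgebraicClosure F) (j0 : Fin k → Fin 3)
    (r : ∀ i, (X.vv i).adicCompletion F) (I : Finset (Fin k))
    (c' : Gal F → Pt (curve (((X.D I : ℕ) : F) ^ 2 * (a : F)) (((X.D I : ℕ) : F) ^ 3 * (b : F)))
      (AlgebraicClosure F)),
    6 ∣ M → 0 < M → 4 * a ^ 3 + 27 * b ^ 2 ≠ 0 → X.Fam (a, b) →
    IsRoots (algebraMap F _ (a : F)) (algebraMap F _ (b : F)) th →
    (∀ i, Loc12 (X.vv i) (X.l i) a b th (j0 i) (r i)) →
    c' ∈ Cocycles 2 (curve (((X.D I : ℕ) : F) ^ 2 * (a : F)) (((X.D I : ℕ) : F) ^ 3 * (b : F))) →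
    ∃ c : Gal F → Pt (curve (a : F) (b : F)) (AlgebraicClosure F), S1 X a b th c ∧
      (∀ i, (i ∉ I → UU (X.vv i) (X.l i) th (j0 i) c) ∧
        (i ∈ I → RR (X.vv i) (X.l i) a th (j0 i) (r i) c)) ∧
      (c ∈ Coboundaries 2 (curve (a : F) (b : F)) →
        c' ∈ Coboundaries 2
          (curve (((X.D I : ℕ) : F) ^ 2 * (a : F)) (((X.D I : ℕ) : F) ^ 3 * (b : F))))

/-- **NOI.** The number of auxiliary places where a class of the relaxed group is of the third type
is even.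
Proof. BAS gives `th', Z, A, B`; permuting the rows of `Z` we may take `th' = th`: `Nrm`. `LJ` holds:
at `v` with `M ∈ v` and at infinite `v`: PNT (2) with BIG, BGI gives `Pos` with `d = 1`, then POJ. At
`v ∉ P`, `M ∉ v`: LRG and UNI (2 divides `M`, so `2 ∉ v`; compose the two matrices). At `v ∈ P` not
of the form `vv i`: TY3 and ZLO; `[[0,0,1],[0,1,0],[1,0,-a]]` is equivalent to `J3`
(`e_3 + (a/2) e_1`, permute). At `vv i`, `i ∉ J`: VGR: `UU` or `RR` gives `Inv` with `m` even or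
`kap f0` a square. At `vv i`, `i ∈ J`: VGR third type. The places `vv i` are distinct. REC with
`S = vv(J)`, `l (vv i) = l i` (odd, not dividing the discriminant, distinct). -/
def SpecNOI : Prop :=
  ∀ (F : Type u) [Field F] [NumberField F] (M k : ℕ) (X : Aux F M k) (a b : 𝓞 F)
    (th : Fin 3 → AlgebraicClosure F) (j0 : Fin k → Fin 3)
    (r : ∀ i, (X.vv i).adicCompletion F) (J : Finset (Fin k))
    (c : Gal F → Pt (curve (a : F) (b : F)) (AlgebraicClosure F)),
    6 ∣ M → 0 < M → 4 * a ^ 3 + 27 * b ^ 2 ≠ 0 → X.Fam (a, b) →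
    IsRoots (algebraMap F _ (a : F)) (algebraMap F _ (b : F)) th →
    (∀ i, Loc12 (X.vv i) (X.l i) a b th (j0 i) (r i)) → S1 X a b th c →
    (∀ i, i ∉ J → UU (X.vv i) (X.l i) th (j0 i) c ∨
      RR (X.vv i) (X.l i) a th (j0 i) (r i) c) →
    (∀ i, i ∈ J → ∃ (m : ℤ) (kap : (X.vv i).adicCompletion F),
      Inv (X.vv i) (X.l i) th (j0 i) c m kap ∧ ¬ Even m ∧
      ¬ IsSquare (kap * (3 * r i ^ 2 + algebraMap F _ (a : F)))) → Even J.card

/-- **ZRO.** If the strict group is trivial, some twist has trivial Selmer group.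
Proof. RTS gives `j0, r`. For `I ⊆ Fin k` let `G_I` be the set of the `c` with `S1 X a b th c`, `UU` at
`vv i` for `i ∉ I` and `RR` at `vv i` for `i ∈ I`. `S1` is closed under addition (cocycles,
`LocTriv.add`; `UR`: multiply the vectors `z`, WEI). For `c` in `S1` let
`supp c = {i : ¬ Zv at vv i}`, `W_I = {supp c : c ∈ G_I}`, a finite set. Choose `I` with `#W_I`
minimal. Suppose `g ∈ G_I`, `i ∈ supp g`. Let `I'` be `I` with `i` added or removed. Claim: every `h`
in `G_{I'}` has `Zv` at `vv i`. Otherwise one of `g, h` is `UU` and not `Zv` at `vv i`: invariants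
`m` even, `kap` not a square (VMU (3)); the other is `RR` and not `Zv`: `m'` odd, `kap' f0` a square
(the alternative (even and square) gives `Zv`). `c = g + h` is in `S1` and has invariants
`m + m'` odd, `kap kap'`, and `kap kap' f0` is not a square (VMU (1)). At `vv j`, `j ≠ i`, `g` and `h`
are both `UU` or both `RR`, and so is `c` (VMU (1): even+even; (even, sq)+(even, sq),
(even, sq)+(odd, kap f0 sq), and odd+odd: `kap kap' = (kap f0)(kap' f0)/f0^2`). NOI with `J = {i}`: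
contradiction.
So the `h ∈ G_{I'}` satisfy `Zv` at `vv i`, hence `UU` and `RR` there (VMU (2): invariants `(0,1)`),
so `h ∈ G_I` and `i ∉ supp h`: `W_{I'} ⊆ W_I \ {supp g}`, contradiction to minimality. So all
`c ∈ G_I` have empty support: `S0`, hence coboundaries by hypothesis. Conclude by SEZ. -/
def SpecZRO : Prop :=
  ∀ (F : Type u) [Field F] [NumberField F] (M k : ℕ) (X : Aux F M k) (a b : 𝓞 F)
    (th : Fin 3 → AlgebraicClosure F),
    6 ∣ M → 0 < M → 4 * a ^ 3 + 27 * b ^ 2 ≠ 0 → X.Fam (a, b) →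
    IsRoots (algebraMap F _ (a : F)) (algebraMap F _ (b : F)) th →
    (∀ c : Gal F → Pt (curve (a : F) (b : F)) (AlgebraicClosure F), S0 X a b th c →
      c ∈ Coboundaries 2 (curve (a : F) (b : F))) →
    ∃ I : Finset (Fin k), Subsingleton
      (Sel 2 (curve (((X.D I : ℕ) : F) ^ 2 * (a : F)) (((X.D I : ℕ) : F) ^ 3 * (b : F))))

/-- **FIN.** The theorem: a positive proportion of the curves in every residue class has trivial
2-Selmer group.
Proof. `C, B0` from TOZ, `M, c` from LWZ. Choose `k` with `C (1/2)^k ≤ c/2`, and `X` from DIR. For `ρ`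
with all `ρ v` large let `S` be the set of the `q` in `Bx F ρ` with `X.Fam q`, `q ≡ (a0, b0) mod N`
and trivial strict group (for the roots `th` given by BASM.roots_closure; TOZ covers every choice
of `th`): by LWZ and TOZ `#S ≥ (c/2) (prod tau) vol ρ^5`. By ZRO for each `q` in `S` there is `I` with
`Sel 2` of the twist trivial; one `I` serves at least `2^{-k} #S` of them. The map
`(a,b) ↦ (D^2a, D^3b)`, `D = X.D I`, is injective, maps `Bx F ρ` into `Bx F (D ρ)`, contained in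
`Bx F (L ρ)`, and preserves the class modulo `N` (`D ≡ 1 mod 8M`, `N ∣ M`). Given `X' : InfinitePlace
F → ℝ` with all `X' v ≥ X0`, let `ρ' v = X' v^{1/(6 mult v)}`, so `Box F X' = Bx F ρ'` (as in MAIN),
and `ρ = ρ'/L`. `vol ρ = vol ρ'/L^n`, and `#Bx F ρ' ≤ C2 vol(ρ')^5` (CNU), so
`#{...} ≥ 2^{-k} (c/2) (prod tau) L^{-5n} C2^{-1} #Box`; `prod tau > 0` by NET. -/
def SpecFIN : Prop :=
  ∀ (F : Type u) [Field F] [NumberField F] (N : ℕ) (a0 b0 : 𝓞 F), 0 < N →
    ∃ (c X0 : ℝ), 0 < c ∧ ∀ X : InfinitePlace F → ℝ, (∀ v, X0 ≤ X v) →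
      (Box F X).Finite ∧ c * ((Box F X).ncard : ℝ) ≤
        ({q : 𝓞 F × 𝓞 F | q ∈ Box F X ∧ ((N : ℕ) : 𝓞 F) ∣ q.1 - a0 ∧
          ((N : ℕ) : 𝓞 F) ∣ q.2 - b0 ∧
          Subsingleton (Sel 2 (curve (q.1 : F) (q.2 : F)))}.ncard : ℝ)

end Pool.Agent.Lib.MP_8cb858_nt.ZER
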